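import Pool.Agent.Lib.helper9.RCF

set_option autoImplicit false

namespace Pool.Agent.H.MP_9bb08e_al

open Polynomial Finset
open scoped PowerSeries LaurentSeries RatFunc

noncomputable def Pi' (A : Type*) [CommRing A] (d : ℕ) : A[X] := ∏ i ∈ range d, (X - C (i : A))

theorem Pi_map {A B : Type*} [CommRing A] [CommRing B] (f : A →+* B) (d : ℕ) :
    (Pi' A d).map f = Pi' B d := by
  simp [Pi', Polynomial.map_prod]

theorem Pi_monic (A : Type*) [CommRing A] (d : ℕ) : (Pi' A d).Monic :=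
  monic_prod_of_monic _ _ fun _ _ => monic_X_sub_C _

theorem Pi_deg (A : Type*) [CommRing A] [Nontrivial A] (d : ℕ) : (Pi' A d).natDegree = d := by
  rw [Pi', natDegree_prod_of_monic _ _ fun _ _ => monic_X_sub_C _]
  simp only [natDegree_X_sub_C, sum_const, card_range, smul_eq_mul, mul_one]

theorem hens (G : ℚ⟦X⟧[X]) (hG : G.Monic) {d : ℕ}
    (h : G.map PowerSeries.constantCoeff = Pi' ℚ d) :
    (G.map (algebraMap ℚ⟦X⟧ ℚ⸨X⸩)).Splits := by
  have hd : G.natDegree = d := by rw [← hG.natDegree_map PowerSeries.constantCoeff, h, Pi_deg]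
  have hs : (Pi' ℚ d).Separable :=
    separable_prod_X_sub_C_iff'.2 fun x _ y _ e => by exact_mod_cast e
  have h0 : ∀ i < d, (Pi' ℚ d).eval (i : ℚ) = 0 := fun i hi => by
    rw [Pi', eval_prod]; exact prod_eq_zero (mem_range.2 hi) (by simp)
  have he : ∀ (p : ℚ⟦X⟧[X]) (i : ℕ), PowerSeries.constantCoeff (p.eval (i : ℚ⟦X⟧)) =
      (p.map PowerSeries.constantCoeff).eval (i : ℚ) := fun p i => by
    rw [eval_map, ← eval₂_at_apply, map_natCast]
  have h1 : ∀ i : Fin d, ∃ a : ℚ⟦X⟧, G.IsRoot a ∧ PowerSeries.constantCoeff a = (i : ℕ) := by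
    intro i
    obtain ⟨a, a1, a2⟩ := HenselianRing.is_henselian (I := Ideal.span {(PowerSeries.X : ℚ⟦X⟧)})
      G hG ((i : ℕ) : ℚ⟦X⟧)
      (by rw [Ideal.mem_span_singleton, PowerSeries.X_dvd_iff, he, h, h0 _ i.2])
      (IsUnit.map _ (by
        rw [PowerSeries.isUnit_iff_constantCoeff, he, ← derivative_map, h, isUnit_iff_ne_zero]
        exact hs.eval₂_derivative_ne_zero (RingHom.id ℚ) (h0 _ i.2)))
    rw [Ideal.mem_span_singleton, PowerSeries.X_dvd_iff, map_sub, map_natCast, sub_eq_zero] at a2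
    exact ⟨a, a1, a2⟩
  choose a a1 a2 using h1
  refine Splits.map ?_ _
  rw [splits_iff_card_roots]
  refine le_antisymm (card_roots' _) ?_
  classical
  refine le_trans ?_ (Multiset.toFinset_card_le _)
  rw [hd]
  conv_lhs => rw [← Fintype.card_fin d, ← card_univ]
  refine card_le_card_of_injOn a (fun i _ => ?_) fun i _ j _ e => ?_
  · simpa [hG.ne_zero] using a1 i
  · have := (a2 i).symm.trans (e ▸ a2 j)
    exact Fin.ext (by exact_mod_cast this)

theorem split_ev (P : ℚ⸨X⸩[X]) (hP : P.Monic) : ∃ N0, ∀ N, N0 ≤ N →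
    (C (algebraMap ℚ⟦X⟧ ℚ⸨X⸩ PowerSeries.X ^ N) * P + Pi' _ P.natDegree).Splits ∧
    C (algebraMap ℚ⟦X⟧ ℚ⸨X⸩ PowerSeries.X ^ N) * P + Pi' _ P.natDegree ≠ 0 := by
  obtain ⟨b, ⟨k, rfl⟩, hb⟩ := IsLocalization.integerNormalization_spec
    (Submonoid.powers (PowerSeries.X : ℚ⟦X⟧)) P
  set H := IsLocalization.integerNormalization (Submonoid.powers (PowerSeries.X : ℚ⟦X⟧)) P
  refine ⟨k + 1, fun N hN => ?_⟩
  obtain ⟨n, rfl⟩ := Nat.exists_eq_add_of_le hN
  obtain ⟨u, hu⟩ : ∃ u : ℚ⟦X⟧, (PowerSeries.X ^ (k + 1 + n) + 1) * u = 1 :=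
    IsUnit.exists_right_inv (by rw [PowerSeries.isUnit_iff_constantCoeff]; simp)
  have hu0 : PowerSeries.constantCoeff u = 1 := by
    simpa using congrArg PowerSeries.constantCoeff hu
  set φ := algebraMap ℚ⟦X⟧ ℚ⸨X⸩
  have hu1 : (φ PowerSeries.X ^ (k + 1 + n) + 1) * φ u = 1 := by
    simpa using congrArg φ hu
  set G : ℚ⟦X⟧[X] := C u * (C (PowerSeries.X ^ (1 + n)) * H + Pi' _ P.natDegree) with hG
  have h1 : G.map φ = C (φ u) * (C (φ PowerSeries.X ^ (k + 1 + n)) * P + Pi' _ P.natDegree) := by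
    rw [hG, Polynomial.map_mul, Polynomial.map_add, Polynomial.map_mul, hb, Pi_map, map_C, map_C,
      Algebra.smul_def, Polynomial.algebraMap_apply]
    simp only [map_pow]
    ring
  have h2 : (G.map φ).Monic := by
    rw [h1]
    refine monic_of_natDegree_le_of_coeff_eq_one P.natDegree ((natDegree_C_mul_le _ _).trans
      (natDegree_add_le_of_degree_le (natDegree_C_mul_le _ _) (Pi_deg _ _).le)) ?_
    have := (Pi_monic ℚ⸨X⸩ P.natDegree).coeff_natDegree
    rw [Pi_deg] at this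
    rw [coeff_C_mul, coeff_add, coeff_C_mul, this, hP.coeff_natDegree, mul_one, mul_comm, hu1]
  have h3 := hens G (monic_of_injective (IsFractionRing.injective _ _) h2) (d := P.natDegree) (by
    rw [hG, Polynomial.map_mul, Polynomial.map_add, Polynomial.map_mul, Pi_map, map_C, map_C, hu0]
    simp)
  constructor
  · have := h3.C_mul (φ PowerSeries.X ^ (k + 1 + n) + 1)
    rwa [h1, ← mul_assoc, ← C_mul, hu1, C_1, one_mul] at this
  · intro h
    rw [h1, h, mul_zero] at h2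
    exact not_monic_zero h2

theorem ps_alg {r : ℚ⟦X⟧} (h : IsAlgebraic ℚ r) : ∃ q : ℚ, r = algebraMap ℚ _ q := by
  refine ⟨PowerSeries.constantCoeff r, ?_⟩
  by_contra h0
  have := (h.isIntegral.sub (isIntegral_algebraMap (x := PowerSeries.constantCoeff r))).isUnit
    (sub_ne_zero.2 h0)
  rw [PowerSeries.isUnit_iff_constantCoeff] at this
  simp at this

theorem ls_alg {z : ℚ⸨X⸩} (h : IsAlgebraic ℚ z) : ∃ q : ℚ, z = algebraMap ℚ _ q := by
  have key : ∀ z : ℚ⸨X⸩, IsAlgebraic ℚ z → IsLocalization.IsInteger ℚ⟦X⟧ z →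
      ∃ q : ℚ, z = algebraMap ℚ _ q := by
    rintro _ h ⟨r, rfl⟩
    obtain ⟨q, rfl⟩ := ps_alg ((isAlgebraic_algHom_iff (algebraMap ℚ⟦X⟧ ℚ⸨X⸩).toRatAlgHom
      (IsFractionRing.injective _ _)).1 h)
    exact ⟨q, (algebraMap ℚ⟦X⟧ ℚ⸨X⸩).toRatAlgHom.commutes q⟩
  rcases ValuationRing.isInteger_or_isInteger ℚ⟦X⟧ z with h1 | h1
  · exact key z h h1
  · obtain ⟨q, hq⟩ := key _ h.inv h1
    exact ⟨q⁻¹, by rw [map_inv₀, ← hq, inv_inv]⟩

variable {K : Type*} [Field K] [LinearOrder K] [IsStrictOrderedRing K]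

def Bd (t z : K) : Prop := ∃ N : ℕ, |z| ≤ t ^ N

theorem Bd.ev {t z : K} (ht : 1 ≤ t) (h : Bd t z) : ∃ N : ℕ, ∀ n, N ≤ n → |z| ≤ t ^ n :=
  let ⟨N, hN⟩ := h; ⟨N, fun _ hn => hN.trans (pow_le_pow_right₀ ht hn)⟩

theorem Bd.mul {t x y : K} (hx : Bd t x) (hy : Bd t y) : Bd t (x * y) :=
  let ⟨m, hm⟩ := hx; let ⟨n, hn⟩ := hy
  ⟨m + n, by rw [abs_mul, pow_add]; exact mul_le_mul hm hn (abs_nonneg _) ((abs_nonneg _).trans hm)⟩

theorem Bd.add {t x y : K} (ht : 2 ≤ t) (hx : Bd t x) (hy : Bd t y) : Bd t (x + y) := by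
  obtain ⟨m, hm⟩ := hx.ev (one_le_two.trans ht)
  obtain ⟨n, hn⟩ := hy.ev (one_le_two.trans ht)
  refine ⟨max m n + 1, (abs_add_le _ _).trans ?_⟩
  have h1 := hm _ (le_max_left m n)
  have h2 := hn _ (le_max_right m n)
  have h3 : 0 ≤ t ^ max m n := (abs_nonneg _).trans h1
  rw [pow_succ]
  nlinarith

theorem rat_lt {t : K} (ht : ∀ n : ℕ, (n : K) < t) (q : ℚ) : (q : K) < t := by
  obtain ⟨n, hn⟩ := exists_nat_ge q
  exact lt_of_le_of_lt (by exact_mod_cast hn) (ht n)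

theorem poly_bd {t : K} (ht : ∀ n : ℕ, (n : K) < t) (p : ℚ[X]) :
    Bd t (aeval t p) ∧ (p ≠ 0 → ∃ r : ℚ, 0 < r ∧ (r : K) ≤ |aeval t p|) := by
  have h2 : (2 : K) ≤ t := by exact_mod_cast (ht 2).le
  have hq : ∀ q : ℚ, Bd t (q : K) := fun q =>
    ⟨1, by rw [pow_one, ← Rat.cast_abs]; exact (rat_lt ht _).le⟩
  induction h : p.natDegree generalizing p with
  | zero =>
    rw [eq_C_of_natDegree_eq_zero h, aeval_C, eq_ratCast]
    exact ⟨hq _, fun h0 => ⟨|p.coeff 0|, abs_pos.2 fun e => h0 (by rw [e, C_0]),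
      by rw [Rat.cast_abs]⟩⟩
  | succ n ih =>
    have h1 : p.divX.natDegree = n := by rw [natDegree_divX_eq_natDegree_tsub_one, h]; rfl
    obtain ⟨i1, i2⟩ := ih _ h1
    have h3 : aeval t p = t * aeval t p.divX + (p.coeff 0 : K) := by
      conv_lhs => rw [← X_mul_divX_add p]
      rw [map_add, map_mul, aeval_X, aeval_C, eq_ratCast]
    rw [h3]
    refine ⟨Bd.add h2 (Bd.mul ⟨1, by rw [pow_one, abs_of_nonneg (by linarith)]⟩ i1) (hq _),
      fun _ => ⟨1, one_pos, ?_⟩⟩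
    obtain ⟨r, r1, r2⟩ := i2 fun e => by
      rw [divX_eq_zero_iff] at e
      rw [e, natDegree_C] at h
      omega
    have h4 := rat_lt ht ((|p.coeff 0| + 1) / r)
    have r3 : (0 : K) < r := by exact_mod_cast r1
    push_cast at h4 ⊢
    rw [div_lt_iff₀ r3] at h4
    have h5 := abs_add_le (t * aeval t p.divX + (p.coeff 0 : K)) (-(p.coeff 0 : K))
    rw [add_neg_cancel_right, abs_neg, abs_mul, abs_of_nonneg (show 0 ≤ t by linarith)] at h5
    nlinarith

theorem all_bd [Algebra (RatFunc ℚ) K] [Algebra.IsAlgebraic (RatFunc ℚ) K]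
    (ht : ∀ n : ℕ, (n : K) < algebraMap (RatFunc ℚ) K RatFunc.X) (z : K) :
    Bd (algebraMap (RatFunc ℚ) K RatFunc.X) z := by
  set t := algebraMap (RatFunc ℚ) K RatFunc.X with htd
  have h2 : (2 : K) ≤ t := by exact_mod_cast (ht 2).le
  have hp : ∀ p : ℚ[X], algebraMap (RatFunc ℚ) K (algebraMap ℚ[X] _ p) = aeval t p := by
    intro p
    have : (algebraMap (RatFunc ℚ) K).comp (algebraMap ℚ[X] _) = (aeval t).toRingHom :=
      Polynomial.ringHom_ext' (RingHom.ext_rat _ _) (by simp [htd])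
    exact DFunLike.congr_fun this p
  have h3 : ∀ f : RatFunc ℚ, Bd t (algebraMap _ K f) := by
    intro f
    rw [← f.num_div_denom, map_div₀, hp, hp, div_eq_mul_inv]
    refine (poly_bd ht _).1.mul ?_
    obtain ⟨r, r1, r2⟩ := (poly_bd ht _).2 f.denom_ne_zero
    have r3 : (0 : K) < r := by exact_mod_cast r1
    refine ⟨1, ?_⟩
    rw [pow_one, abs_inv]
    refine (inv_anti₀ r3 r2).trans ?_
    exact_mod_cast (rat_lt ht r⁻¹).le
  by_cases h1 : |z| ≤ 1
  · exact ⟨0, by simpa using h1⟩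
  have hi : IsIntegral (RatFunc ℚ) z := Algebra.IsIntegral.isIntegral z
  obtain ⟨n, hn⟩ : ∃ n, (minpoly (RatFunc ℚ) z).natDegree = n + 1 :=
    ⟨_, (Nat.succ_pred_eq_of_pos (minpoly.natDegree_pos hi)).symm⟩
  have h4 := minpoly.aeval (RatFunc ℚ) z
  have h5 : (minpoly (RatFunc ℚ) z).coeff (n + 1) = 1 := by rw [← hn]; exact minpoly.monic hi
  rw [aeval_eq_sum_range, hn, sum_range_succ, h5, one_smul] at h4
  have h6 : Bd t (∑ i ∈ range (n + 1), |algebraMap _ K ((minpoly (RatFunc ℚ) z).coeff i)|) :=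
    sum_induction _ (Bd t) (fun _ _ => Bd.add h2) ⟨0, by simp⟩ fun i _ =>
      let ⟨N, hN⟩ := h3 ((minpoly (RatFunc ℚ) z).coeff i); ⟨N, by rwa [abs_abs]⟩
  obtain ⟨N, hN⟩ := h6
  refine ⟨N, le_trans ?_ ((le_abs_self _).trans hN)⟩
  have h7 : 1 ≤ |z| := (not_le.1 h1).le
  refine le_of_mul_le_mul_right ?_ (show 0 < |z| ^ n by positivity)
  rw [← pow_succ', ← abs_pow, eq_neg_of_add_eq_zero_right h4, abs_neg, sum_mul]
  refine (abs_sum_le_sum_abs _ _).trans (sum_le_sum fun i hi => ?_)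
  rw [Algebra.smul_def, abs_mul, abs_pow]
  exact mul_le_mul_of_nonneg_left (pow_le_pow_right₀ h7 (by have := mem_range.1 hi; omega))
    (abs_nonneg _)

theorem small (T : Finset K) (h : ∀ s ∈ T, 0 < s) : ∃ δ > 0, ∀ s ∈ T, δ < s := by
  classical
  induction T using Finset.induction_on with
  | empty => exact ⟨1, one_pos, by simp⟩
  | insert a T _ ih =>
    obtain ⟨δ, h1, h2⟩ := ih fun s hs => h s (mem_insert_of_mem hs)
    have h3 := h a (mem_insert_self _ _)
    refine ⟨min δ (a / 2), lt_min h1 (by positivity), fun s hs => ?_⟩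
    rcases mem_insert.1 hs with rfl | hs
    · exact (min_le_right _ _).trans_lt (by linarith)
    · exact (min_le_left _ _).trans_lt (h2 s hs)

theorem sign_change [IsRealClosed K] {P : K[X]} (hP : P.Separable) {a b c : K} (hac : a < c)
    (hcb : c < b) (h : P.eval c = 0) :
    ∃ x y, a < x ∧ x < y ∧ y < b ∧ P.eval x * P.eval y < 0 := by
  classical
  obtain ⟨R, rfl⟩ := dvd_iff_isRoot.2 h
  have h1 : R.eval c ≠ 0 := by
    simpa using hP.eval₂_derivative_ne_zero (RingHom.id K) h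
  have h2 : R ≠ 0 := by rintro rfl; simp at h1
  obtain ⟨δ, d0, d1⟩ := small (insert (c - a) (insert (b - c)
    (R.roots.toFinset.image fun s => |s - c|))) (by
      intro s hs
      simp only [mem_insert, mem_image, Multiset.mem_toFinset, mem_roots h2] at hs
      rcases hs with rfl | rfl | ⟨s, hs, rfl⟩
      · linarith
      · linarith
      · exact abs_pos.2 (sub_ne_zero.2 fun e => h1 (e ▸ hs)))
  have d2 := d1 _ (mem_insert_self _ _)
  have d3 := d1 _ (mem_insert_of_mem (mem_insert_self _ _))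
  have d4 : ∀ s, |s - c| ≤ δ → R.eval s ≠ 0 := fun s hs e =>
    absurd (d1 _ (mem_insert_of_mem (mem_insert_of_mem (mem_image_of_mem _
      (Multiset.mem_toFinset.2 ((mem_roots h2).2 e)))))) hs.not_gt
  have d5 : 0 < R.eval (c - δ) * R.eval (c + δ) := by
    refine lt_of_le_of_ne (not_lt.1 fun e => ?_) (mul_ne_zero (d4 _ ?_) (d4 _ ?_)).symm
    · obtain ⟨s, s1, s2, s3⟩ := Pool.Agent.Lib.helper9.RCF.ivt R (by linarith) e
      exact d4 s (abs_le.2 ⟨by linarith, by linarith⟩) s3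
    · simp [abs_of_pos d0]
    · simp [abs_of_pos d0]
  refine ⟨c - δ, c + δ, by linarith, by linarith, by linarith, ?_⟩
  simp only [eval_mul, eval_sub, eval_X, eval_C]
  nlinarith [mul_pos (mul_pos d0 d0) d5]

theorem main [IsRealClosed K] [Algebra (RatFunc ℚ) K] [Algebra.IsAlgebraic (RatFunc ℚ) K]
    (ht : ∀ n : ℕ, (n : K) < algebraMap (RatFunc ℚ) K RatFunc.X) :
    ∃ F : Subfield K, (∀ a b : K, a < b → ∃ f ∈ F, a < f ∧ f < b) ∧
      ∀ x ∈ F, IsAlgebraic ℚ x → ∃ q : ℚ, x = q := by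
  obtain ⟨L, hL⟩ := zorn_le (α := IntermediateField.Lifts (RatFunc ℚ) K ℚ⸨X⸩)
    fun c hc => IntermediateField.Lifts.exists_upper_bound c hc
  refine ⟨L.carrier.toSubfield, fun a b hab => ?_, fun x hx h => ?_⟩
  · set t := algebraMap (RatFunc ℚ) K RatFunc.X with htd
    have h1 : (1 : K) ≤ t := by exact_mod_cast (ht 1).le
    have hi : ∀ z : K, IsIntegral L.carrier z := fun z =>
      (Algebra.IsIntegral.isIntegral (R := RatFunc ℚ) z).tower_top
    set P := minpoly L.carrier ((a + b) / 2)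
    obtain ⟨x, y, x1, x2, x3, x4⟩ := sign_change (P := P.map (algebraMap _ K))
      (minpoly.irreducible (hi _)).separable.map (show a < (a + b) / 2 by linarith)
      (show (a + b) / 2 < b by linarith) (by rw [eval_map_algebraMap]; exact minpoly.aeval _ _)
    simp only [eval_map_algebraMap] at x4
    obtain ⟨N0, hN0⟩ := split_ev (P.map L.emb.toRingHom) ((minpoly.monic (hi _)).map _)
    obtain ⟨N1, hN1⟩ := (all_bd ht (2 * ((Pi' K P.natDegree).eval x / aeval x P))).ev h1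
    obtain ⟨N2, hN2⟩ := (all_bd ht (2 * ((Pi' K P.natDegree).eval y / aeval y P))).ev h1
    set N := max N0 (max N1 N2)
    set Q : L.carrier[X] := C (algebraMap (RatFunc ℚ) L.carrier RatFunc.X ^ N) * P +
      Pi' _ P.natDegree with hQ
    have h2 : ∀ z : K, aeval z Q = t ^ N * aeval z P + (Pi' K P.natDegree).eval z := fun z => by
      rw [hQ, map_add, map_mul, aeval_C, map_pow, ← IsScalarTower.algebraMap_apply,
        ← eval_map_algebraMap (Pi' _ _), Pi_map]
    have h3 : ∀ z : K, aeval z P ≠ 0 → |2 * ((Pi' K P.natDegree).eval z / aeval z P)| ≤ t ^ N →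
        0 < aeval z Q * aeval z P := fun z z0 z1 => by
      have z2 : 0 < t ^ N := by positivity
      have z3 := (abs_le.1 z1).1
      have z4 : aeval z Q * aeval z P =
          (t ^ N + (Pi' K P.natDegree).eval z / aeval z P) * aeval z P ^ 2 := by
        rw [h2]; field_simp
      rw [z4]
      exact mul_pos (by linarith) (by positivity)
    have h4 := h3 x (left_ne_zero_of_mul x4.ne) (hN1 _ (by omega))
    have h5 := h3 y (right_ne_zero_of_mul x4.ne) (hN2 _ (by omega))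
    obtain ⟨f, f1, f2, f3⟩ := Pool.Agent.Lib.helper9.RCF.ivt (Q.map (algebraMap _ K)) x2 (by
      simp only [eval_map_algebraMap]
      by_contra h
      nlinarith [mul_pos h4 h5, mul_nonneg (not_lt.1 h) (neg_pos.2 x4).le])
    rw [eval_map_algebraMap] at f3
    obtain ⟨s1, s2⟩ := hN0 N (by omega)
    have h6 : Q.map L.emb.toRingHom = C (algebraMap ℚ⟦X⟧ ℚ⸨X⸩ PowerSeries.X ^ N) *
        P.map L.emb.toRingHom + Pi' _ (P.map L.emb.toRingHom).natDegree := by
      rw [hQ, Polynomial.map_add, Polynomial.map_mul, map_C, Pi_map, natDegree_map, map_pow]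
      congr 4
      exact (L.emb.commutes _).trans (RatFunc.coe_X.trans PowerSeries.coe_X.symm)
    rw [← h6] at s1 s2
    obtain ⟨L', l1, l2⟩ := L.exists_lift_of_splits' (hi f)
      (s1.of_dvd s2 (Polynomial.map_dvd _ (minpoly.dvd _ _ f3)))
    exact ⟨f, (hL l1).1 l2, x1.trans f1, f2.trans x3⟩
  · have h1 : IsAlgebraic ℚ (⟨x, hx⟩ : L.carrier) :=
      (isAlgebraic_algHom_iff (algebraMap L.carrier K).toRatAlgHom Subtype.val_injective).1 h
    obtain ⟨q, hq⟩ := ls_alg (h1.algHom L.emb.toRingHom.toRatAlgHom)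
    refine ⟨q, ?_⟩
    have h2 : (⟨x, hx⟩ : L.carrier) = q :=
      L.emb.toRingHom.injective (hq.trans ((eq_ratCast _ q).trans (map_ratCast _ q).symm))
    simpa using congrArg (algebraMap L.carrier K) h2

end Pool.Agent.H.MP_9bb08e_al
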